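import Mathlib
import Pool.Agent.R233.Lem

/-!
# The quasi triangle inequality for the Lempert function fails on smooth pseudoconvex domains

`D = {|z₁|⁸ + |z₂|⁴ + |z₁ z₂|² + |w|² + ... < 1} ⊂ ℂⁿ`, `n ≥ 3`. Let `w₀ = 1 - r⁸`. The points
`x = (-εr, 0, w₀)`, `y = (0, 0, w₀)`, `z = (0, εr², w₀)` satisfy `ℓ(x,y) ≤ 2ε`, `ℓ(y,z) ≤ ε`. If
`(f, g, h)` is a disc in `D` through `x` and `z` (parameters `0`, `α`), then Harnack's inequality
gives `|f g|² ≤ 1 - |h|² ≤ 6 r⁸` on `|ζ| ≤ 1/2`; as `f = (ζ-α) F`, `g = ζ G`, the maximum principle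
gives `|F(0) G(0)| ≤ 20 r⁴`, where `|F(0)| = εr/|α|`, `G(0) ≈ εr²/α`. So `ε/|α|` is at most of the
order of `r^{1/2}` for small `ε`.
-/

set_option autoImplicit false

open Pool.Agent.R233 Pool.Agent.R233.Lem

namespace Pool.Agent.Results.MP_68919f_an.QuasiTriangleFails

/-- For every `n ≥ 3` there is a bounded pseudoconvex domain in `ℂⁿ` with `C^∞` boundary (even of
finite type) whose Lempert function satisfies no quasi triangle inequality. -/
theorem result (n : ℕ) (hn : 3 ≤ n) : ∃ D : Set (Fin n → ℂ), IsFiniteTypeDomain D ∧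
    ∀ C : ℝ, ∃ x ∈ D, ∃ y ∈ D, ∃ z ∈ D,
      C * (lempert D x y + lempert D y z) < lempert D x z :=
  lem_main n hn

end Pool.Agent.Results.MP_68919f_an.QuasiTriangleFails
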